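import Pool.Agent.Y253.SM.Key
import Pool.Agent.Y253.SM.Est
import Pool.Agent.Y253.SM.Com
import Pool.Agent.Y253.SM.Evc
import Pool.Agent.Y253.SM.Tro
import Pool.Agent.H522R3.Spl.Fin

/-!
# Splitting methods of every order with coefficients in arbitrarily narrow sectors

Q1 asks for splitting methods of every order all of whose coefficients have positive real part.
We prove that the coefficients can be taken in an arbitrarily narrow sector `|arg z| < θ` around the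
positive half-axis (for real positive coefficients the order is at most two), and that an open
convex cone of coefficients admits methods of every order as soon as it admits one of order one,
that is, as soon as it contains the positive reals.

Idea. In the free nilpotent group, let the exponents of the moving frame of `exp (t (X + Y))` be
perturbed by `ε u`, with a small *complex* parameter `ε`. Since `ε` may be rotated, what is attained
to leading order can be compensated later (`S_INV`), so commutators of perturbations are attained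
(`S_COM`), hence all brackets (`S_MON`), with leading coefficients `ε^k ω v`, `ω ∈ ℂ` arbitrary. With
the induction hypothesis applied on a time interval of length `η`, `η^(n+2) ≪ ε^k`, the errors of
lower degree are removed (`S_EST`), and a cone argument gives all group elements near
`exp (T (X + Y))`.
-/

open Filter Topology
open scoped ContDiff

namespace Pool.Agent.Results.MP_18dddc_an.NarrowSector

/-- `ℂ^d` with its Euclidean norm. -/
abbrev Cd (d : ℕ) : Type := EuclideanSpace ℂ (Fin d)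

/-- `y = e^{τ f} x`: `y` is the value at `s = 1` of a solution on `[0, 1]` of `y' = τ f(y)` that
starts at `x`. -/
def IsFlow {d : ℕ} (f : Cd d → Cd d) (τ : ℂ) (x y : Cd d) : Prop :=
  ∃ γ : ℝ → Cd d, γ 0 = x ∧ γ 1 = y ∧
    ∀ s ∈ Set.Icc (0:ℝ) 1, HasDerivWithinAt γ (τ • f (γ s)) (Set.Icc 0 1) s

/-- For `l = [(α₁, β₁), …, (α_k, β_k)]`:
`y = e^{α₁ T f₀} e^{β₁ T f₁} ⋯ e^{α_k T f₀} e^{β_k T f₁} x`. -/
def IsSplitFlow {d : ℕ} (f₀ f₁ : Cd d → Cd d) (T : ℝ) : List (ℂ × ℂ) → Cd d → Cd d → Prop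
  | [], x, y => y = x
  | p :: l, x, y => ∃ z w, IsSplitFlow f₀ f₁ T l x z ∧ IsFlow f₁ (p.2 * (T : ℂ)) z w ∧
      IsFlow f₀ (p.1 * (T : ℂ)) w y

/-- `l = [(α₁, β₁), …, (α_k, β_k)]`, `k ≥ 1`, is an `(𝔸, 𝔹)` splitting method of order (at least)
`N`: all `α_j ∈ 𝔸`, all `β_j ∈ 𝔹`, and for all `d ≥ 1`, all holomorphic vector fields `f₀`, `f₁` on
`ℂ^d` and all `x₀` there is `C` such that for all sufficiently small `T > 0` the points
`y = e^{T (f₀ + f₁)} x₀` and `z = e^{α₁ T f₀} e^{β₁ T f₁} ⋯ e^{α_k T f₀} e^{β_k T f₁} x₀` exist, are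
unique, and satisfy `|y - z| ≤ C T^(N+1)`. -/
def IsSplittingMethod (𝔸 𝔹 : Set ℂ) (N : ℕ) (l : List (ℂ × ℂ)) : Prop :=
  l ≠ [] ∧ (∀ p ∈ l, p.1 ∈ 𝔸 ∧ p.2 ∈ 𝔹) ∧
  ∀ d : ℕ, 1 ≤ d → ∀ f₀ f₁ : Cd d → Cd d, Differentiable ℂ f₀ → Differentiable ℂ f₁ →
    ∀ x₀ : Cd d, ∃ C : ℝ, ∀ᶠ T : ℝ in 𝓝[>] 0, ∃ y z : Cd d,
      (∀ y', IsFlow (f₀ + f₁) (T : ℂ) x₀ y' ↔ y' = y) ∧
      (∀ z', IsSplitFlow f₀ f₁ T l x₀ z' ↔ z' = z) ∧ ‖y - z‖ ≤ C * T ^ (N + 1)

/-- the open sector of half-opening `θ` around the positive half-axis -/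
def sector (θ : ℝ) : Set ℂ := {z | z ≠ 0 ∧ |z.arg| < θ}

/-- `𝔸` is an open convex cone (with vertex `0`, not necessarily in `𝔸`). -/
def IsOpenConvexCone (𝔸 : Set ℂ) : Prop :=
  IsOpen 𝔸 ∧ Convex ℝ 𝔸 ∧ ∀ z ∈ 𝔸, ∀ t : ℝ, 0 < t → (t : ℂ) * z ∈ 𝔸

theorem isSplitFlow_iff {d : ℕ} (f₀ f₁ : Cd d → Cd d) (T : ℝ) :
    ∀ (l : List (ℂ × ℂ)) (x y : Cd d),
      IsSplitFlow f₀ f₁ T l x y ↔ H522R3.Spl.IsSplit f₀ f₁ T l x y
  | [], _, _ => Iff.rfl
  | p :: l, x, y => by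
    constructor
    · rintro ⟨z, w, h1, h2, h3⟩
      exact ⟨z, w, (isSplitFlow_iff f₀ f₁ T l x z).1 h1, h2, h3⟩
    · rintro ⟨z, w, h1, h2, h3⟩
      exact ⟨z, w, (isSplitFlow_iff f₀ f₁ T l x z).2 h1, h2, h3⟩

theorem smooth_of_holomorphic {d : ℕ} {f : Cd d → Cd d} (hf : Differentiable ℂ f) :
    ContDiff ℂ ∞ f := by
  rw [contDiff_infty]
  intro n
  have := Pool.Agent.Helper540.contDiffOn_of_differentiableOn isOpen_univ
    hf.differentiableOn n
  exact contDiffOn_univ.1 this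

/-- a set of coefficients that is invariant under positive scaling and a neighbourhood of `1`
contains a sector -/
theorem exists_kappa {𝔸 : Set ℂ} (h1 : 𝔸 ∈ 𝓝 (1 : ℂ))
    (h2 : ∀ z ∈ 𝔸, ∀ t : ℝ, 0 < t → (t : ℂ) * z ∈ 𝔸) :
    ∃ κ : ℝ, 0 < κ ∧ ∀ κ', 0 < κ' → κ' ≤ κ → ∀ z, Pool.Agent.Y253.SM.Sec κ' z → z ∈ 𝔸 := by
  obtain ⟨δ, hδ, hball⟩ := Metric.mem_nhds_iff.1 h1
  refine ⟨δ, hδ, fun κ' hκ' hκ z hz => ?_⟩
  unfold Pool.Agent.Y253.SM.Sec at hz
  have hre : 0 < z.re := by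
    by_contra hcon
    push Not at hcon
    have h3 := abs_nonneg z.im
    nlinarith
  have e1 : z = (z.re : ℂ) * ((z.re : ℂ)⁻¹ * z) := by
    rw [← mul_assoc, mul_inv_cancel₀ (by exact_mod_cast hre.ne'), one_mul]
  rw [e1]
  refine h2 _ (hball ?_) _ hre
  rw [Metric.mem_ball, dist_eq_norm]
  have e2 : (z.re : ℂ)⁻¹ * z - 1 = ((z.im / z.re : ℝ) : ℂ) * Complex.I := by
    have e3 : z = (z.re : ℂ) + (z.im : ℂ) * Complex.I := (Complex.re_add_im z).symm
    have e4 : (z.re : ℂ) ≠ 0 := by exact_mod_cast hre.ne'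
    have e5 : (z.re : ℂ)⁻¹ * z = (z.re : ℂ)⁻¹ * ((z.re : ℂ) + (z.im : ℂ) * Complex.I) := by
      rw [← e3]
    rw [e5]
    push_cast
    field_simp
    ring
  rw [e2, norm_mul, Complex.norm_I, mul_one, Complex.norm_real, Real.norm_eq_abs, abs_div,
    abs_of_pos hre, div_lt_iff₀ hre]
  nlinarith

/-- methods of every order for all sets of coefficients that are invariant under positive scaling
and neighbourhoods of `1` -/
theorem exists_method {𝔸 𝔹 : Set ℂ} (hA : 𝔸 ∈ 𝓝 (1 : ℂ)) (hB : 𝔹 ∈ 𝓝 (1 : ℂ))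
    (hA2 : ∀ z ∈ 𝔸, ∀ t : ℝ, 0 < t → (t : ℂ) * z ∈ 𝔸)
    (hB2 : ∀ z ∈ 𝔹, ∀ t : ℝ, 0 < t → (t : ℂ) * z ∈ 𝔹) (N : ℕ) :
    ∃ l : List (ℂ × ℂ), IsSplittingMethod 𝔸 𝔹 N l := by
  obtain ⟨κ₁, hκ₁, k1⟩ := exists_kappa hA hA2
  obtain ⟨κ₂, hκ₂, k2⟩ := exists_kappa hB hB2
  have hκ : 0 < min κ₁ κ₂ := lt_min hκ₁ hκ₂
  obtain ⟨l, hne, hpos, hl⟩ := Pool.Agent.Y253.SM.exists_word
    (Pool.Agent.Y253.SM.key
      (Pool.Agent.Y253.SM.est Pool.Agent.Y253.SM.cli
        (Pool.Agent.Y253.SM.evc Pool.Agent.Y253.SM.tro Pool.Agent.Y253.SM.clm)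
        Pool.Agent.Y253.SM.evb Pool.Agent.Y253.SM.oinv Pool.Agent.Y253.SM.oconj
        Pool.Agent.Y253.SM.ginv)
      Pool.Agent.Y253.SM.mon) (min κ₁ κ₂) hκ N
  refine ⟨l.reverse, by simpa using hne, ?_, ?_⟩
  · intro p hp
    obtain ⟨p1, p2⟩ := hpos p (List.mem_reverse.1 hp)
    exact ⟨k1 _ hκ (min_le_left _ _) _ p1, k2 _ hκ (min_le_right _ _) _ p2⟩
  · intro d _ f₀ f₁ h₀ h₁ x₀
    obtain ⟨C, hC⟩ := H522R3.Spl.main (smooth_of_holomorphic h₀) (smooth_of_holomorphic h₁) x₀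
      (N := N) (l := l.reverse) (by simpa using hl)
    refine ⟨C, hC.mono ?_⟩
    rintro T ⟨y, z, h1, h2, h3⟩
    refine ⟨y, z, h1, fun z' => ?_, h3⟩
    rw [isSplitFlow_iff]
    exact h2 z'

/-! ### Order one forces the sums of the coefficients to be one -/

theorem isFlow_const {d : ℕ} (c : Cd d) (τ : ℂ) (x : Cd d) :
    IsFlow (fun _ => c) τ x (x + τ • c) := by
  refine ⟨fun s => x + s • (τ • c), by simp, by simp, fun s _ => ?_⟩
  have h := ((hasDerivAt_id s).smul_const (τ • c)).const_add x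
  simp only [id, one_smul] at h
  exact h.hasDerivWithinAt

theorem isSplitFlow_const {d : ℕ} (a b : Cd d) (T : ℝ) : ∀ (l : List (ℂ × ℂ)) (x : Cd d),
    IsSplitFlow (fun _ => a) (fun _ => b) T l x
      (x + ((l.map Prod.fst).sum * (T : ℂ)) • a + ((l.map Prod.snd).sum * (T : ℂ)) • b)
  | [], x => by
    change _ = x
    simp
  | p :: l, x => by
    refine ⟨_, _, isSplitFlow_const a b T l x, isFlow_const b _ _, ?_⟩
    have h := isFlow_const a (p.1 * (T : ℂ)) (x + ((l.map Prod.fst).sum * (T : ℂ)) • a +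
      ((l.map Prod.snd).sum * (T : ℂ)) • b + (p.2 * (T : ℂ)) • b)
    convert h using 1
    simp only [List.map_cons, List.sum_cons, add_mul, add_smul]
    abel

theorem sum_eq {𝔸 𝔹 : Set ℂ} {l : List (ℂ × ℂ)} (h : IsSplittingMethod 𝔸 𝔹 1 l) (a b : ℂ) :
    a + b = (l.map Prod.fst).sum * a + (l.map Prod.snd).sum * b := by
  set S₁ := (l.map Prod.fst).sum with hS₁
  set S₂ := (l.map Prod.snd).sum with hS₂
  let e : Cd 1 := EuclideanSpace.single 0 1
  have he : ‖e‖ = 1 := by simp [e]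
  obtain ⟨C, hC⟩ := h.2.2 1 le_rfl (fun _ => a • e) (fun _ => b • e) (differentiable_const _)
    (differentiable_const _) 0
  have h1 : ∀ᶠ T : ℝ in 𝓝[>] 0, ‖(a + b) - (S₁ * a + S₂ * b)‖ ≤ C * T := by
    filter_upwards [hC, self_mem_nhdsWithin] with T hT hT0
    obtain ⟨y, z, hy, hz, hyz⟩ := hT
    have ey : (0 : Cd 1) + (T : ℂ) • (a • e + b • e) = y := by
      refine (hy _).1 ?_
      exact isFlow_const (a • e + b • e) (T : ℂ) 0
    have ez := (hz _).1 (isSplitFlow_const (a • e) (b • e) T l 0)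
    rw [← ey, ← ez, ← hS₁, ← hS₂] at hyz
    have e1 : (0 : Cd 1) + (T : ℂ) • (a • e + b • e) -
        (0 + (S₁ * (T : ℂ)) • a • e + (S₂ * (T : ℂ)) • b • e) =
        ((T : ℂ) * ((a + b) - (S₁ * a + S₂ * b))) • e := by
      simp only [zero_add, smul_smul, ← add_smul, ← sub_smul]
      congr 1
      ring
    rw [e1, norm_smul, he, mul_one, norm_mul, Complex.norm_real, Real.norm_of_nonneg
      (le_of_lt hT0)] at hyz
    have hT0' : (0:ℝ) < T := hT0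
    have e2 : C * T ^ (1 + 1) = T * (C * T) := by ring
    rw [e2] at hyz
    exact le_of_mul_le_mul_left hyz hT0'
  have h2 : Tendsto (fun T : ℝ => C * T) (𝓝[>] 0) (𝓝 0) := by
    have : Tendsto (fun T : ℝ => C * T) (𝓝 0) (𝓝 (C * 0)) := tendsto_id.const_mul C
    rw [mul_zero] at this
    exact this.mono_left nhdsWithin_le_nhds
  have h3 := ge_of_tendsto h2 h1
  have h4 := norm_le_zero_iff.1 h3
  exact sub_eq_zero.1 h4

theorem cone_add {𝔸 : Set ℂ} (h : IsOpenConvexCone 𝔸) {z w : ℂ} (hz : z ∈ 𝔸) (hw : w ∈ 𝔸) :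
    z + w ∈ 𝔸 := by
  have h1 : (1 / 2 : ℝ) • z + (1 / 2 : ℝ) • w ∈ 𝔸 :=
    h.2.1 hz hw (by norm_num) (by norm_num) (by norm_num)
  have h2 := h.2.2 _ h1 2 (by norm_num)
  convert h2 using 1
  simp only [Complex.real_smul]
  push_cast
  ring

theorem cone_sum {𝔸 : Set ℂ} (h : IsOpenConvexCone 𝔸) : ∀ l : List ℂ, l ≠ [] → (∀ z ∈ l, z ∈ 𝔸) →
    l.sum ∈ 𝔸
  | [], h1, _ => absurd rfl h1
  | [z], _, h2 => by simpa using h2 z (by simp)
  | z :: w :: l, _, h2 => by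
    rw [List.sum_cons]
    exact cone_add h (h2 z (by simp))
      (cone_sum h (w :: l) (by simp) fun u hu => h2 u (List.mem_cons_of_mem _ hu))

theorem one_mem {𝔸 𝔹 : Set ℂ} (hA : IsOpenConvexCone 𝔸) (hB : IsOpenConvexCone 𝔹)
    {l : List (ℂ × ℂ)} (h : IsSplittingMethod 𝔸 𝔹 1 l) : (1 : ℂ) ∈ 𝔸 ∧ (1 : ℂ) ∈ 𝔹 := by
  have h1 := sum_eq h 1 0
  have h2 := sum_eq h 0 1
  simp only [mul_one, mul_zero, add_zero, zero_add] at h1 h2
  rw [h1]
  have hne : l.map Prod.fst ≠ [] := by simpa using h.1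
  have hne' : l.map Prod.snd ≠ [] := by simpa using h.1
  refine ⟨cone_sum hA _ hne ?_, ?_⟩
  · intro z hz
    obtain ⟨p, hp, rfl⟩ := List.mem_map.1 hz
    exact (h.2.1 p hp).1
  · rw [← h1, h2]
    refine cone_sum hB _ hne' ?_
    intro z hz
    obtain ⟨p, hp, rfl⟩ := List.mem_map.1 hz
    exact (h.2.1 p hp).2

theorem sector_mem_nhds {θ : ℝ} (hθ : 0 < θ) : sector θ ∈ 𝓝 (1 : ℂ) := by
  have h1 : ContinuousAt Complex.arg 1 := Complex.continuousAt_arg (by simp)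
  have h2 : ∀ᶠ z : ℂ in 𝓝 1, |z.arg| < θ := by
    have h3 : ContinuousAt (fun z : ℂ => |z.arg|) 1 := h1.abs
    refine h3.eventually_lt continuousAt_const ?_
    simpa using hθ
  have h4 : ∀ᶠ z : ℂ in 𝓝 1, z ≠ 0 := isOpen_ne.mem_nhds one_ne_zero
  exact (h4.and h2)

theorem sector_cone {θ : ℝ} : ∀ z ∈ sector θ, ∀ t : ℝ, 0 < t → (t : ℂ) * z ∈ sector θ := by
  rintro z ⟨h1, h2⟩ t ht
  refine ⟨mul_ne_zero (by exact_mod_cast ht.ne') h1, ?_⟩
  rwa [Complex.arg_real_mul z ht]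

/-- **Splitting methods of every order in narrow sectors.**
(1) For every `N ≥ 1` and every `θ > 0` there is a splitting method of order `N` all of whose
coefficients are nonzero and satisfy `|arg z| < θ`.
(2) For open convex cones `𝔸`, `𝔹 ⊆ ℂ` the following are equivalent: there is an `(𝔸, 𝔹)` splitting
method of order one; there are `(𝔸, 𝔹)` splitting methods of every order; `1 ∈ 𝔸` and `1 ∈ 𝔹`.
(3) (Q1) For every `N ≥ 1` there is a splitting method of order `N` all of whose coefficients have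
positive real part. -/
theorem result :
    (∀ N : ℕ, 1 ≤ N → ∀ θ : ℝ, 0 < θ → ∃ l : List (ℂ × ℂ),
      IsSplittingMethod (sector θ) (sector θ) N l) ∧
    (∀ 𝔸 𝔹 : Set ℂ, IsOpenConvexCone 𝔸 → IsOpenConvexCone 𝔹 →
      List.TFAE [∃ l : List (ℂ × ℂ), IsSplittingMethod 𝔸 𝔹 1 l,
        ∀ N : ℕ, 1 ≤ N → ∃ l : List (ℂ × ℂ), IsSplittingMethod 𝔸 𝔹 N l,
        (1 : ℂ) ∈ 𝔸 ∧ (1 : ℂ) ∈ 𝔹]) ∧
    (∀ N : ℕ, 1 ≤ N → ∃ l : List (ℂ × ℂ),
      IsSplittingMethod {z : ℂ | 0 < z.re} {z : ℂ | 0 < z.re} N l) := by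
  refine ⟨fun N _ θ hθ => exists_method (sector_mem_nhds hθ) (sector_mem_nhds hθ) sector_cone
    sector_cone N, fun 𝔸 𝔹 hA hB => ?_, fun N _ => ?_⟩
  · tfae_have 2 → 1 := fun h => h 1 le_rfl
    tfae_have 1 → 3 := by
      rintro ⟨l, hl⟩
      exact one_mem hA hB hl
    tfae_have 3 → 2 := fun h N _ => exists_method (hA.1.mem_nhds h.1) (hB.1.mem_nhds h.2)
      hA.2.2 hB.2.2 N
    tfae_finish
  · have h1 : {z : ℂ | 0 < z.re} ∈ 𝓝 (1 : ℂ) :=
      (isOpen_lt continuous_const Complex.continuous_re).mem_nhds (by simp)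
    have h2 : ∀ z ∈ {z : ℂ | 0 < z.re}, ∀ t : ℝ, 0 < t → (t : ℂ) * z ∈ {z : ℂ | 0 < z.re} := by
      intro z hz t ht
      simp only [Set.mem_ofPred_eq, Complex.re_ofReal_mul] at *
      positivity
    exact exists_method h1 h1 h2 h2 N

end Pool.Agent.Results.MP_18dddc_an.NarrowSector
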